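import Pool.Agent.MP_670f9a_nt.H13.Spec2

/-!
The rows of the box matrix span the lattice of relations.
-/

namespace Pool.Agent.MP_670f9a_nt.H40

open Pool.Agent.MP_670f9a_nt.NP MvPolynomial

lemma ex_zero (i j : ℕ) : ex i j 0 = i := by simp [ex]

lemma ex_one (i j : ℕ) : ex i j 1 = j := by simp [ex]

lemma ex_eta (m : Fin 2 →₀ ℕ) : ex (m 0) (m 1) = m := by
  ext k
  fin_cases k
  · exact ex_zero _ _
  · exact ex_one _ _

lemma ex_inj {i j i' j' : ℕ} (h : ex i j = ex i' j') : i = i' ∧ j = j' := by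
  have h0 := congrArg (fun m : Fin 2 →₀ ℕ => m 0) h
  have h1 := congrArg (fun m : Fin 2 →₀ ℕ => m 1) h
  simp only [ex_zero, ex_one] at h0 h1
  exact ⟨h0, h1⟩

lemma coeff_box {a b : ℕ} (g : Fin a × Fin b → ℤ) (i : Fin a × Fin b) :
    coeff (ex i.1 i.2) (∑ l : Fin a × Fin b, monomial (ex l.1 l.2) (g l)) = g i := by
  classical
  rw [coeff_sum, Finset.sum_eq_single i]
  · simp
  · intro l _ hl
    rw [coeff_monomial, if_neg]
    intro h
    obtain ⟨h0, h1⟩ := ex_inj h
    exact hl (Prod.ext (Fin.ext h0) (Fin.ext h1))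
  · simp

lemma support_box {a b : ℕ} (g : Fin a × Fin b → ℤ) (m : Fin 2 →₀ ℕ)
    (hm : m ∈ (∑ l : Fin a × Fin b, monomial (ex l.1 l.2) (g l)).support) : m 0 < a ∧ m 1 < b := by
  classical
  rw [mem_support_iff, coeff_sum] at hm
  obtain ⟨l, -, hl⟩ := Finset.exists_ne_zero_of_sum_ne_zero hm
  rw [coeff_monomial] at hl
  split_ifs at hl with h
  · subst h
    rw [ex_zero, ex_one]
    exact ⟨l.1.2, l.2.2⟩
  · exact absurd rfl hl

lemma eq_box {a b : ℕ} (H : MvPolynomial (Fin 2) ℤ)
    (hH : ∀ m ∈ H.support, m 0 < a ∧ m 1 < b) :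
    H = ∑ l : Fin a × Fin b, monomial (ex l.1 l.2) (coeff (ex l.1 l.2) H) := by
  ext m
  by_cases hm : m 0 < a ∧ m 1 < b
  · have := coeff_box (fun l : Fin a × Fin b => coeff (ex l.1 l.2) H) (⟨m 0, hm.1⟩, ⟨m 1, hm.2⟩)
    simp only [ex_eta] at this
    exact this.symm
  · have h1 : m ∉ H.support := fun h => hm (hH m h)
    have h2 : m ∉ (∑ l : Fin a × Fin b,
        monomial (ex l.1 l.2) (coeff (ex l.1 l.2) H)).support := fun h => hm (support_box _ m h)
    rw [notMem_support_iff] at h1 h2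
    rw [h1, h2]

lemma aeval_ex {K : Type} [Field K] (α β : K) (i j : ℕ) (c : ℤ) :
    aeval ![α, β] (monomial (ex i j) c) = (c : K) * (α ^ i * β ^ j) := by
  rw [aeval_monomial, Finsupp.prod_fintype _ _ (by simp), Fin.prod_univ_two, ex_zero, ex_one]
  simp

lemma aeval_box {K : Type} [Field K] (α β : K) {a b : ℕ} (g : Fin a × Fin b → ℤ) :
    aeval ![α, β] (∑ l : Fin a × Fin b, monomial (ex l.1 l.2) (g l)) =
      ∑ l : Fin a × Fin b, (g l : K) * (α ^ (l.1 : ℕ) * β ^ (l.2 : ℕ)) := by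
  rw [map_sum]
  exact Finset.sum_congr rfl fun l _ => aeval_ex α β _ _ _

lemma deg_pos {K : Type} [Field K] [CharZero K] (α β : K) (P : MvPolynomial (Fin 2) ℤ)
    (hP : P ≠ 0) (h : aeval ![α, β] P = 0) : 1 ≤ P.degreeOf 0 + P.degreeOf 1 := by
  by_contra hc
  have h0 : P.degreeOf 0 = 0 := by omega
  have h1 : P.degreeOf 1 = 0 := by omega
  have hb := eq_box (a := 1) (b := 1) P (fun m hm => by
    have a0 := monomial_le_degreeOf 0 hm
    have a1 := monomial_le_degreeOf 1 hm
    omega)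
  have h2 := h
  rw [hb, aeval_box] at h2
  apply hP
  rw [hb]
  simp only [Fintype.sum_prod_type, Fin.sum_univ_one, Fin.val_eq_zero, pow_zero, mul_one,
    Int.cast_eq_zero] at h2 ⊢
  rw [h2, monomial_zero]

theorem sSpan (h : SBez) : SSpan := by
  classical
  intro K _ _ α β P Λ hadj hirr hP hD
  have hP0 : P ≠ 0 := hirr.ne_zero
  refine ⟨fun k => ?_, fun g hg => ?_⟩
  · have hb := eq_box (a := Λ) (b := Λ)
      (P * monomial (ex (ofLex k).2 (ofLex k).1) 1) (fun m hm => by
        have hs := support_mul _ _ hm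
        rw [Finset.mem_add] at hs
        obtain ⟨s, hs, t, ht, rfl⟩ := hs
        have ht' := support_monomial_subset ht
        rw [Finset.mem_singleton] at ht'
        subst ht'
        have a0 := monomial_le_degreeOf 0 hs
        have a1 := monomial_le_degreeOf 1 hs
        have b0 := (ofLex k).2.2
        have b1 := (ofLex k).1.2
        simp only [Finsupp.add_apply, ex_zero, ex_one]
        omega)
    have h2 := congrArg (aeval ![α, β]) hb
    rw [aeval_box, map_mul, hP, zero_mul] at h2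
    exact h2.symm
  · set G : MvPolynomial (Fin 2) ℤ := ∑ l : Fin Λ × Fin Λ, monomial (ex l.1 l.2) (g l) with hG
    have hGv : aeval ![α, β] G = 0 := by rw [hG, aeval_box]; exact hg
    by_cases hG0 : G = 0
    · refine ⟨0, fun i => ?_⟩
      have := coeff_box g i
      rw [← hG, hG0] at this
      simp [← this]
    have hΛ : 0 < Λ := by
      obtain ⟨m, hm⟩ := support_nonempty.2 hG0
      have := support_box g m hm
      omega
    have hd0 : G.degreeOf 0 < Λ := (degreeOf_lt_iff hΛ).2 fun m hm => (support_box g m hm).1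
    have hd1 : G.degreeOf 1 < Λ := (degreeOf_lt_iff hΛ).2 fun m hm => (support_box g m hm).2
    have hdvd : P ∣ G := by
      by_contra hn
      have h1 := h K α β P G hadj hirr hn hP hGv
      have h2 := deg_pos α β P hP0 hP
      have h3 : P.degreeOf 0 * G.degreeOf 1 ≤ P.degreeOf 0 * (Λ - 1) :=
        Nat.mul_le_mul_left _ (by omega)
      have h4 : P.degreeOf 1 * G.degreeOf 0 ≤ P.degreeOf 1 * (Λ - 1) :=
        Nat.mul_le_mul_left _ (by omega)
      have h5 : (P.degreeOf 0 + P.degreeOf 1) * (Λ - 1) < (P.degreeOf 0 + P.degreeOf 1) * Λ :=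
        Nat.mul_lt_mul_of_pos_left (by omega) (by omega)
      rw [add_mul] at h5
      omega
    obtain ⟨Q, hQ⟩ := hdvd
    have hQ0 : Q ≠ 0 := by
      rintro rfl
      exact hG0 (by rw [hQ, mul_zero])
    have e0 : G.degreeOf 0 = P.degreeOf 0 + Q.degreeOf 0 := by
      rw [hQ, degreeOf_mul_eq hP0 hQ0]
    have e1 : G.degreeOf 1 = P.degreeOf 1 + Q.degreeOf 1 := by
      rw [hQ, degreeOf_mul_eq hP0 hQ0]
    have hb := eq_box (a := Λ - P.degreeOf 0) (b := Λ - P.degreeOf 1) Q (fun m hm => by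
      have a0 := monomial_le_degreeOf 0 hm
      have a1 := monomial_le_degreeOf 1 hm
      omega)
    refine ⟨fun k => coeff (ex (ofLex k).2 (ofLex k).1) Q, fun i => ?_⟩
    have h1 := coeff_box g i
    rw [← hG, hQ, hb, Finset.mul_sum, coeff_sum] at h1
    rw [← h1]
    refine Fintype.sum_equiv ((Equiv.prodComm _ _).trans toLex) _ _ fun l => ?_
    simp only [box, Equiv.trans_apply, Equiv.prodComm_apply, ofLex_toLex, Prod.fst_swap,
      Prod.snd_swap]
    rw [← coeff_C_mul, mul_left_comm, C_mul_monomial, mul_one]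

end Pool.Agent.MP_670f9a_nt.H40
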